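import Pool.Agent.H1.CA.TarP
import Pool.Agent.H68.SF.LBas

/-!
# (CH) many levels of the hierarchy of `B_β` are models of `ZFm`
-/

set_option autoImplicit false

open Ordinal Order Set
open scoped ZFSet

namespace CAA

open SF

theorem pf_CH (hPC : T_PC) (hPF : T_PF) (hGH : T_GH) (hDU : T_DU) (hFI : SF.T_FI)
    (hFL : SF.T_FL) : T_CH := by
  intro D hOk G hG β hβ ρ hρ
  obtain ⟨ρ', hρ1, hρ2, hz⟩ := hOk.grd.unbθ (max ρ D.χ) (max_lt hρ hOk.grd.χθ)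
  have hρρ' : ρ < ρ' := lt_of_le_of_lt (le_max_left _ _) hρ1
  have hχρ' : D.χ < ρ' := lt_of_le_of_lt (le_max_right _ _) hρ1
  refine ⟨ρ', hρρ', hρ2, ?_⟩
  obtain ⟨_, _, hord⟩ := (hGH D hOk).2.2 ρ' hz
  have hsub : LA ∅ D.χ ⊆ LA ∅ ρ' := Lh_mono hχρ'.le
  have hsubθ : LA ∅ ρ' ⊆ LA ∅ D.θ := Lh_mono hρ2.le
  obtain ⟨hPo, _⟩ := hPF D hOk
  have hc : D.c ∈ LA ∅ ρ' := hsub hOk.cM
  have hr : D.r ∈ LA ∅ ρ' := hsub hOk.rM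
  have hGen : Gen (· ∈ LA ∅ ρ') D.c D.r G := ⟨hG.1, fun E hE hd => hG.2 E (hsubθ hE) hd⟩
  obtain ⟨hZ, hin, hGG⟩ := hFI (· ∈ LA ∅ ρ') D.c D.r G hz hc hr hPo hGen
  obtain ⟨_, _, hFL3⟩ := hFL
  obtain ⟨_, _, _, _, _, _, hXs, hHs, _, _, _, haS⟩ := hPC
  have hκ : Ext (· ∈ LA ∅ ρ') G D.κ.toZFSet := hin _ ((hord _).2 (hOk.grd.κχ.trans hχρ'))
  have hβ' : Ext (· ∈ LA ∅ ρ') G β.toZFSet :=
    hin _ ((hord _).2 ((hβ.trans hOk.grd.κχ).trans hχρ'))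
  have htf : Ext (· ∈ LA ∅ ρ') G D.tf := hin _ (hsub hOk.tM)
  have hX : Ext (· ∈ LA ∅ ρ') G (D.X G) :=
    hXs.1 _ hZ (cons D.κ.toZFSet fun _ => G) (In.cons (fun _ => hGG) hκ)
  have hH : Ext (· ∈ LA ∅ ρ') G (D.H G) :=
    hHs.1 _ hZ (cons D.κ.toZFSet (cons D.c fun _ => D.X G))
      (In.cons (In.cons (fun _ => hX) (hin _ hc)) hκ)
  have ha : Ext (· ∈ LA ∅ ρ') G (D.a G β) :=
    haS.1 _ hZ (cons D.κ.toZFSet (cons D.tf (cons (D.X G) (cons (D.H G) fun _ => β.toZFSet))))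
      (In.cons (In.cons (In.cons (In.cons (fun _ => hβ') hH) hX) htf) hκ)
  exact (hDU _ (D.a G β) ρ' hZ ha
    (fun α => ⟨fun h => (hord α).1 (hFL3 _ G α hz h), fun h => hin _ ((hord α).2 h)⟩)).2.2.1

end CAA
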