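import Pool.Agent.H9.CA.TarQ

/-!
# (QK) strictness
-/

set_option autoImplicit false

open Ordinal Order Set
open scoped ZFSet

namespace CAA

open SF

theorem pf_QK (h3 : F_M3) (h4 : F_M4) : T_QK := by
  intro D G β hOk hG hβ
  have hβ' : β < D.κ := lt_of_le_of_lt (le_succ β) hβ
  obtain ⟨i, _, hiκ, hi⟩ := hOk.tB β hβ' β hβ' ∅ (SF.ZFm.mempty hOk.grd.zκ)
  have hfst : fst (app D.tf i.toZFSet) = β.toZFSet := by rw [hi, fst_pair]
  have hsnd : snd (app D.tf i.toZFSet) = ∅ := by rw [hi, snd_pair]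
  have hiA : i.toZFSet ∈ D.A G β := by
    unfold Dat.A As
    rw [ZFSet.mem_sep]
    refine ⟨Ordinal.toZFSet_mem_toZFSet_iff.2 hiκ, Ac.z _ hsnd, ?_⟩
    rw [hfst]
  have hiB : i.toZFSet ∉ D.A G (succ β) := by
    unfold Dat.A As
    rw [ZFSet.mem_sep, hfst]
    rintro ⟨_, _, h⟩
    have h1 : β.toZFSet ∈ (succ β).toZFSet := Ordinal.toZFSet_mem_toZFSet_iff.2 (lt_succ β)
    exact ZFSet.mem_irrefl _ (h h1)
  obtain ⟨hxB, hcl, hdis⟩ := h3 D G β i hOk hG hβ' hiκ hiA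
  refine ⟨(⋃₀ (fib (D.X G) i.toZFSet) : ZFSet), ?_, ?_⟩
  · unfold Dat.N
    rw [ZFSet.mem_sep]
    refine ⟨hxB, ?_⟩
    have h1 := ZFSet.rank_mono hcl.sub
    rw [Ordinal.rank_toZFSet] at h1
    exact lt_of_le_of_lt h1 (hOk.sz.μκ i hiκ)
  · intro hx
    have hxB' : (⋃₀ (fib (D.X G) i.toZFSet) : ZFSet) ∈ D.B G (succ β) := by
      unfold Dat.N at hx
      exact (ZFSet.mem_sep.1 hx).1
    obtain ⟨δ, hδ, hδC, hδE⟩ := (h4 D G (succ β) i hOk hG hβ hiκ).1 hiB _ hxB' hcl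
    exact hdis δ hδ hδC hδE

end CAA
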