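import Pool.Agent.H21.CA.UDefs

/-!
# (UF) Löwenheim, Skolem and Mostowski for `(ZFSet.{1}, ∈)`
-/

set_option autoImplicit false

open Ordinal Order Set
open scoped ZFSet

namespace CAU

open SF CAA

/-- a code of a formula -/
def ufe : Fml → ℕ
  | .mem i j => Nat.pair 0 (Nat.pair i j)
  | .eq i j => Nat.pair 1 (Nat.pair i j)
  | .prd i => Nat.pair 2 i
  | .neg φ => Nat.pair 3 (ufe φ)
  | .and φ ψ => Nat.pair 4 (Nat.pair (ufe φ) (ufe ψ))
  | .ex φ => Nat.pair 5 (ufe φ)

theorem ufe_inj : Function.Injective ufe := by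
  intro φ
  induction φ with
  | mem i j =>
    intro ψ h
    cases ψ <;> simp [ufe, Nat.pair_eq_pair] at h
    simp [h]
  | eq i j =>
    intro ψ h
    cases ψ <;> simp [ufe, Nat.pair_eq_pair] at h
    simp [h]
  | prd i =>
    intro ψ h
    cases ψ <;> simp [ufe, Nat.pair_eq_pair] at h
    simp [h]
  | neg φ ih =>
    intro ψ h
    cases ψ <;> simp [ufe, Nat.pair_eq_pair] at h
    rw [ih h]
  | and φ ψ ih1 ih2 =>
    intro χ h
    cases χ <;> simp [ufe, Nat.pair_eq_pair] at h
    rw [ih1 h.1, ih2 h.2]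
  | ex φ ih =>
    intro ψ h
    cases ψ <;> simp [ufe, Nat.pair_eq_pair] at h
    rw [ih h]

theorem uf_countable : Countable Fml := ufe_inj.countable

/-- satisfaction depends on finitely many variables -/
theorem St_congr {A : Type*} (E : A → A → Prop) (φ : Fml) : ∀ v w : ℕ → A,
    (∀ i < φ.bd, v i = w i) → (St E φ v ↔ St E φ w) := by
  induction φ with
  | mem i j =>
    intro v w h
    simp only [Fml.bd] at h
    simp only [St]
    rw [h i (by omega), h j (by omega)]
  | eq i j =>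
    intro v w h
    simp only [Fml.bd] at h
    simp only [St]
    rw [h i (by omega), h j (by omega)]
  | prd i =>
    intro v w h
    simp only [St]
  | neg φ ih =>
    intro v w h
    simp only [St]
    rw [ih v w h]
  | and φ ψ ih1 ih2 =>
    intro v w h
    simp only [Fml.bd] at h
    simp only [St]
    rw [ih1 v w (fun i hi => h i (lt_max_of_lt_left hi)),
      ih2 v w (fun i hi => h i (lt_max_of_lt_right hi))]
  | ex φ ih =>
    intro v w h
    simp only [Fml.bd] at h
    simp only [St]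
    refine exists_congr fun x => ih _ _ fun i hi => ?_
    cases i with
    | zero => rfl
    | succ n => exact h n (by omega)

/-- satisfaction in `V1` -/
abbrev S1 (φ : Fml) (v : ℕ → V1) : Prop := St (fun x y : V1 => x ∈ y) φ v

/-- a witness -/
noncomputable def uw (s : V1) (φ : Fml) (l : List V1) : V1 :=
  open Classical in
  if h : ∃ y, S1 φ (cn y fun i => l.getD i s) then h.choose else s

theorem uw_spec {s : V1} {φ : Fml} {l : List V1} (h : ∃ y, S1 φ (cn y fun i => l.getD i s)) :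
    S1 φ (cn (uw s φ l) fun i => l.getD i s) := by
  unfold uw
  rw [dif_pos h]
  exact h.choose_spec

/-- the steps of the closure -/
def uS (s : V1) : ℕ → Set V1
  | 0 => {s}
  | n + 1 => uS s n ∪ Set.range fun p : Fml × List (uS s n) => uw s p.1 (p.2.map Subtype.val)

theorem uS_countable (s : V1) (n : ℕ) : (uS s n).Countable := by
  induction n with
  | zero => exact Set.countable_singleton s
  | succ n ih =>
    have h1 : Countable (uS s n) := ih.to_subtype
    have h2 := uf_countable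
    exact ih.union (Set.countable_range _)

theorem uS_mono (s : V1) {m n : ℕ} (h : m ≤ n) : uS s m ⊆ uS s n := by
  induction n, h using Nat.le_induction with
  | base => exact fun _ h => h
  | succ n _ ih => exact fun x hx => Or.inl (ih hx)

/-- the closure -/
def uT (s : V1) : Set V1 := ⋃ n, uS s n

theorem uT_countable (s : V1) : (uT s).Countable := Set.countable_iUnion (uS_countable s)

theorem mem_uT (s : V1) : s ∈ uT s := Set.mem_iUnion.2 ⟨0, rfl⟩

theorem uT_bound (s : V1) (v : ℕ → V1) (hv : ∀ i, v i ∈ uT s) (N : ℕ) :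
    ∃ n, ∀ i < N, v i ∈ uS s n := by
  induction N with
  | zero => exact ⟨0, fun i hi => absurd hi (Nat.not_lt_zero i)⟩
  | succ N ih =>
    obtain ⟨n, hn⟩ := ih
    obtain ⟨m, hm⟩ := Set.mem_iUnion.1 (hv N)
    refine ⟨max n m, fun i hi => ?_⟩
    rcases Nat.lt_succ_iff_lt_or_eq.1 hi with h | h
    · exact uS_mono s (le_max_left _ _) (hn i h)
    · rw [h]
      exact uS_mono s (le_max_right _ _) hm

/-- the Tarski-Vaught test -/
theorem uT_tv (s : V1) (φ : Fml) (v : ℕ → V1) (hv : ∀ i, v i ∈ uT s)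
    (h : ∃ x, S1 φ (cn x v)) : ∃ x ∈ uT s, S1 φ (cn x v) := by
  obtain ⟨n, hn⟩ := uT_bound s v hv φ.bd
  obtain ⟨l, hl, hl2⟩ : ∃ l : List (uS s n), (l.map Subtype.val) =
      (List.range φ.bd).map v ∧ True := by
    have h1 : ∀ N ≤ φ.bd, ∃ l : List (uS s n), (l.map Subtype.val) = (List.range N).map v := by
      intro N
      induction N with
      | zero => exact fun _ => ⟨[], rfl⟩
      | succ N ih =>
        intro hN
        obtain ⟨l, hl⟩ := ih (by omega)
        refine ⟨l ++ [⟨v N, hn N (by omega)⟩], ?_⟩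
        rw [List.map_append, hl, List.range_succ, List.map_append]
        rfl
    obtain ⟨l, hl⟩ := h1 φ.bd le_rfl
    exact ⟨l, hl, trivial⟩
  have hget : ∀ i < φ.bd, (l.map Subtype.val).getD i s = v i := by
    intro i hi
    rw [hl, List.getD_eq_getElem _ _ (by simpa using hi)]
    simp
  have hcong : ∀ x, S1 φ (cn x v) ↔ S1 φ (cn x fun i => (l.map Subtype.val).getD i s) := by
    intro x
    refine St_congr _ φ _ _ fun i hi => ?_
    cases i with
    | zero => rfl
    | succ i => exact (hget i (by omega)).symm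
  obtain ⟨x, hx⟩ := h
  refine ⟨uw s φ (l.map Subtype.val), ?_, ?_⟩
  · exact Set.mem_iUnion.2 ⟨n + 1, Or.inr ⟨(φ, l), rfl⟩⟩
  · rw [hcong]
    exact uw_spec ⟨x, (hcong x).1 hx⟩

/-- the collapse -/
noncomputable def ucol (e : ℕ → V1) (x : V1) : V :=
  ZFSet.range fun n : {n : ℕ // e n ∈ x} => ucol e (e n.1)
termination_by x.rank
decreasing_by exact ZFSet.rank_lt_of_mem n.2

theorem mem_ucol {e : ℕ → V1} {x : V1} {y : V} :
    y ∈ ucol e x ↔ ∃ n, e n ∈ x ∧ ucol e (e n) = y := by
  rw [ucol, ZFSet.mem_range]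
  constructor
  · rintro ⟨n, rfl⟩
    exact ⟨n.1, n.2, rfl⟩
  · rintro ⟨n, h, rfl⟩
    exact ⟨⟨n, h⟩, rfl⟩

theorem uT_ext (s : V1) {x y : V1} (hx : x ∈ uT s) (hy : y ∈ uT s) (h : ∃ z, z ∈ x ∧ z ∉ y) :
    ∃ z ∈ uT s, z ∈ x ∧ z ∉ y := by
  obtain ⟨z, hz1, hz2⟩ := h
  have h1 := uT_tv s (.and (.mem 0 1) (.neg (.mem 0 2))) (cn x fun _ => y)
    (fun i => by
      cases i with
      | zero => exact hx
      | succ i => exact hy)
    ⟨z, hz1, hz2⟩
  obtain ⟨w, hw, hw1, hw2⟩ := h1
  exact ⟨w, hw, hw1, hw2⟩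

theorem ucol_inj (s : V1) (e : ℕ → V1) (he : uT s = Set.range e) : ∀ (r : Ordinal.{1}) (x y : V1),
    x.rank = r → x ∈ uT s → y ∈ uT s → ucol e x = ucol e y → x = y := by
  intro r
  induction r using WellFoundedLT.induction with
  | _ r ih =>
    intro x y hr hx hy h
    have hmem : ∀ z ∈ uT s, ∃ n, e n = z := fun z hz => by
      rw [he] at hz
      exact hz
    have hmem' : ∀ n, e n ∈ uT s := fun n => by
      rw [he]
      exact ⟨n, rfl⟩
    by_contra hne
    have h1 : (∃ z, z ∈ x ∧ z ∉ y) ∨ ∃ z, z ∈ y ∧ z ∉ x := by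
      by_contra hcon
      push Not at hcon
      exact hne (ZFSet.ext fun z => ⟨hcon.1 z, hcon.2 z⟩)
    rcases h1 with h1 | h1
    · obtain ⟨z, hz, hzx, hzy⟩ := uT_ext s hx hy h1
      obtain ⟨m, hm⟩ := hmem z hz
      have h2 : ucol e z ∈ ucol e y := by
        rw [← h, mem_ucol]
        exact ⟨m, by rw [hm]; exact hzx, by rw [hm]⟩
      obtain ⟨n, hn, hn2⟩ := mem_ucol.1 h2
      have h3 := ih z.rank (by rw [← hr]; exact ZFSet.rank_lt_of_mem hzx) z (e n) rfl hz
        (hmem' n) hn2.symm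
      rw [← h3] at hn
      exact hzy hn
    · obtain ⟨z, hz, hzy, hzx⟩ := uT_ext s hy hx h1
      obtain ⟨m, hm⟩ := hmem z hz
      have h2 : ucol e z ∈ ucol e x := by
        rw [h, mem_ucol]
        exact ⟨m, by rw [hm]; exact hzy, by rw [hm]⟩
      obtain ⟨n, hn, hn2⟩ := mem_ucol.1 h2
      have h3 := ih (e n).rank (by rw [← hr]; exact ZFSet.rank_lt_of_mem hn) (e n) z rfl
        (hmem' n) hz hn2
      rw [h3] at hn
      exact hzx hn

theorem pf_UF : T_UF := by
  intro s
  obtain ⟨e, he⟩ := (uT_countable s).exists_eq_range ⟨s, mem_uT s⟩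
  have hmem : ∀ z ∈ uT s, ∃ n, e n = z := fun z hz => by
    rw [he] at hz
    exact hz
  have hmem' : ∀ n, e n ∈ uT s := fun n => by
    rw [he]
    exact ⟨n, rfl⟩
  have hinj : ∀ x ∈ uT s, ∀ y ∈ uT s, ucol e x = ucol e y → x = y := fun x hx y hy h =>
    ucol_inj s e he x.rank x y rfl hx hy h
  have hin : ∀ x ∈ uT s, ∀ y ∈ uT s, (x ∈ y ↔ ucol e x ∈ ucol e y) := by
    intro x hx y hy
    rw [mem_ucol]
    constructor
    · intro h
      obtain ⟨n, hn⟩ := hmem x hx
      exact ⟨n, by rw [hn]; exact h, by rw [hn]⟩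
    · rintro ⟨n, hn, hn2⟩
      rw [← hinj _ (hmem' n) _ hx hn2]
      exact hn
  obtain ⟨W, hW⟩ : ∃ W : V, W = ZFSet.range fun n : ℕ => ucol e (e n) := ⟨_, rfl⟩
  have hWm : ∀ w, w ∈ W ↔ ∃ n, ucol e (e n) = w := by
    intro w
    rw [hW, ZFSet.mem_range]
  have hJ : ∀ w : V, ∃ z : V1, w ∈ W → z ∈ uT s ∧ ucol e z = w := by
    intro w
    by_cases hw : w ∈ W
    · obtain ⟨n, hn⟩ := (hWm w).1 hw
      exact ⟨e n, fun _ => ⟨hmem' n, hn⟩⟩
    · exact ⟨s, fun h => absurd h hw⟩
  choose j hj using hJ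
  have hjc : ∀ x ∈ uT s, ucol e x ∈ W ∧ j (ucol e x) = x := by
    intro x hx
    obtain ⟨n, hn⟩ := hmem x hx
    have h1 : ucol e x ∈ W := (hWm _).2 ⟨n, by rw [hn]⟩
    exact ⟨h1, hinj _ (hj _ h1).1 _ hx (hj _ h1).2⟩
  refine ⟨W, j, ⟨?_, ?_, ?_⟩, ucol e s, (hjc s (mem_uT s)).1, (hjc s (mem_uT s)).2⟩
  · refine (Set.countable_range fun n : ℕ => ucol e (e n)).mono ?_
    intro w hw
    exact (hWm w).1 hw
  · intro z hz y hy
    obtain ⟨n, rfl⟩ := (hWm z).1 hz
    obtain ⟨m, _, rfl⟩ := mem_ucol.1 hy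
    exact (hWm _).2 ⟨m, rfl⟩
  · intro φ
    induction φ with
    | mem i k =>
      intro v hv
      show v i ∈ v k ↔ j (v i) ∈ j (v k)
      rw [hin _ (hj _ (hv i)).1 _ (hj _ (hv k)).1, (hj _ (hv i)).2, (hj _ (hv k)).2]
    | eq i k =>
      intro v hv
      show v i = v k ↔ j (v i) = j (v k)
      constructor
      · intro h
        rw [h]
      · intro h
        rw [← (hj _ (hv i)).2, ← (hj _ (hv k)).2, h]
    | prd i =>
      intro v hv
      exact Iff.rfl
    | neg φ ih =>
      intro v hv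
      exact not_congr (ih v hv)
    | and φ ψ ih1 ih2 =>
      intro v hv
      exact and_congr (ih1 v hv) (ih2 v hv)
    | ex φ ih =>
      intro v hv
      have hc : ∀ x, (fun i => j (cons x v i)) = cn (j x) fun i => j (v i) := by
        intro x
        funext i
        cases i <;> rfl
      constructor
      · rintro ⟨x, hx, h⟩
        have h1 := (ih (cons x v) (fun i => by
          cases i with
          | zero => exact hx
          | succ i => exact hv i)).1 h
        rw [hc] at h1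
        exact ⟨j x, h1⟩
      · intro h
        obtain ⟨x, hx, h1⟩ := uT_tv s φ (fun i => j (v i)) (fun i => (hj _ (hv i)).1) h
        obtain ⟨h2, h3⟩ := hjc x hx
        refine ⟨ucol e x, h2, ?_⟩
        have h4 := (ih (cons (ucol e x) v) (fun i => by
          cases i with
          | zero => exact h2
          | succ i => exact hv i)).2
        rw [hc, h3] at h4
        exact h4 h1

end CAU
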