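import Pool.Agent.H21.CA.UDefs

/-!
# (UH) well-orders, Hartogs, collection in `ZFSet.{1}`
-/

set_option autoImplicit false

open Ordinal Order Set
open scoped ZFSet

namespace CAU

open SF CAA

theorem ord1_toZFSet (α : Ordinal.{1}) : Ord1 α.toZFSet := by
  have h := ZFSet.isOrdinal_toZFSet α
  rw [ZFSet.isOrdinal_iff_forall_mem_isTransitive] at h
  exact h

/-- a surjection from a small type gives a set function -/
theorem uh_one (x : V1) : ∃ a f, Ord1 a ∧ Onto1 f a x := by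
  obtain ⟨T, ⟨e⟩⟩ : ∃ T : Type 1, Nonempty ({u // u ∈ x} ≃ T) :=
    ⟨Shrink.{1} {u // u ∈ x}, ⟨equivShrink _⟩⟩
  obtain ⟨α, hα⟩ : ∃ α : Ordinal.{1}, α = Ordinal.type (WellOrderingRel : T → T → Prop) :=
    ⟨_, rfl⟩
  obtain ⟨g, hg⟩ : ∃ g : Set.Iio α → {u // u ∈ x}, Function.Surjective g := by
    subst hα
    refine ⟨fun β => e.symm (Ordinal.enum (WellOrderingRel : T → T → Prop) β), ?_⟩
    exact e.symm.surjective.comp
      (Ordinal.enum (WellOrderingRel : T → T → Prop)).surjective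
  refine ⟨α.toZFSet, ZFSet.range (fun β : Set.Iio α => ZFSet.pair β.1.toZFSet (g β).1),
    ord1_toZFSet α, ⟨?_, ?_⟩, ?_⟩
  · intro z hz
    rw [ZFSet.mem_range] at hz
    obtain ⟨β, rfl⟩ := hz
    rw [ZFSet.mem_prod]
    exact ⟨_, Ordinal.toZFSet_mem_toZFSet_iff.2 β.2, _, (g β).2, rfl⟩
  · intro z hz
    rw [Ordinal.mem_toZFSet_iff] at hz
    obtain ⟨β, hβ, rfl⟩ := hz
    refine ⟨(g ⟨β, hβ⟩).1, ?_, ?_⟩
    · show ZFSet.pair _ _ ∈ ZFSet.range _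
      rw [ZFSet.mem_range]
      exact ⟨⟨β, hβ⟩, rfl⟩
    · intro w hw
      have hw' : ZFSet.pair β.toZFSet w ∈
        ZFSet.range (fun β : Set.Iio α => ZFSet.pair β.1.toZFSet (g β).1) := hw
      rw [ZFSet.mem_range] at hw'
      obtain ⟨β', h'⟩ := hw'
      obtain ⟨h1, h2⟩ := ZFSet.pair_injective h'
      have h3 : β' = ⟨β, hβ⟩ := Subtype.ext (Ordinal.toZFSet_injective h1)
      rw [← h2, h3]
  · intro b hb
    obtain ⟨β, hβ⟩ := hg ⟨b, hb⟩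
    refine ⟨β.1.toZFSet, Ordinal.toZFSet_mem_toZFSet_iff.2 β.2, ?_⟩
    rw [ZFSet.mem_range]
    exact ⟨β, by rw [hβ]⟩

theorem uh_two (x : V1) : ∃ a, Ord1 a ∧ ∀ f, ¬ Onto1 f x a := by
  obtain ⟨T, ⟨e⟩⟩ : ∃ T : Type 1, Nonempty ({u // u ∈ x} ≃ T) :=
    ⟨Shrink.{1} {u // u ∈ x}, ⟨equivShrink _⟩⟩
  obtain ⟨α, hα⟩ : ∃ α : Ordinal.{1}, α = (Order.succ (Cardinal.mk T)).ord := ⟨_, rfl⟩
  refine ⟨α.toZFSet, ord1_toZFSet α, fun f hf => ?_⟩
  have h1 : ∀ β : α.ToType, ∃ u : {u // u ∈ x},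
      ZFSet.pair u.1 (Ordinal.ToType.mk.symm β).1.toZFSet ∈ f := by
    intro β
    obtain ⟨u, hu, h⟩ := hf.2 (Ordinal.ToType.mk.symm β).1.toZFSet
      (Ordinal.toZFSet_mem_toZFSet_iff.2 (Ordinal.ToType.mk.symm β).2)
    exact ⟨⟨u, hu⟩, h⟩
  choose G hG using h1
  have hinj : Function.Injective (fun β => e (G β)) := by
    intro β β' h
    have h2 : G β = G β' := e.injective h
    have h3 := hG β
    have h4 := hG β'
    rw [← h2] at h4
    obtain ⟨w, _, hw⟩ := hf.1.2 (G β).1 (G β).2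
    have h5 := (hw _ h3).trans (hw _ h4).symm
    have h6 := Subtype.ext (Ordinal.toZFSet_injective h5)
    exact Ordinal.ToType.mk.symm.injective h6
  have h7 := Cardinal.mk_le_of_injective hinj
  rw [Cardinal.mk_toType, hα, Cardinal.card_ord] at h7
  exact absurd h7 (not_le.2 (Order.lt_succ _))

theorem pf_UH : T_UH := by
  refine ⟨uh_one, uh_two, ?_⟩
  intro x R h
  choose F hF using h
  refine ⟨ZFSet.range (fun u : {u // u ∈ x} => F u.1 u.2), fun u hu => ⟨F u hu, ?_, hF u hu⟩⟩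
  rw [ZFSet.mem_range]
  exact ⟨⟨u, hu⟩, rfl⟩

end CAU
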