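import Pool.Agent.H21.CA.UDefs

/-!
# (UJ) a Grothendieck universe of `W` gives an inaccessible
-/

set_option autoImplicit false

open Ordinal Order Set
open scoped ZFSet

namespace CAU

open SF CAA

theorem pf_UJ : T_UJ := by
  intro W K hW hK
  have hz : ZFm (· ∈ W) := hW.toZFCm.toZFm
  have hKW : ∀ x ∈ K, x ∈ W := fun x hx => hz.trans K hK.mem x hx
  have hdown : ∀ α β : Ordinal.{0}, α < β → β.toZFSet ∈ K → α.toZFSet ∈ K := fun α β h hb =>
    hK.tr _ hb (Ordinal.toZFSet_mem_toZFSet_iff.2 h)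
  have hne : {α : Ordinal.{0} | α.toZFSet ∉ K}.Nonempty := by
    refine ⟨K.rank, fun h => ?_⟩
    have h1 := ZFSet.rank_lt_of_mem h
    rw [Ordinal.rank_toZFSet] at h1
    exact lt_irrefl _ h1
  obtain ⟨κ, hκ⟩ : ∃ κ : Ordinal.{0}, κ = sInf {α : Ordinal.{0} | α.toZFSet ∉ K} := ⟨_, rfl⟩
  have hκK : ∀ α : Ordinal.{0}, α.toZFSet ∈ K ↔ α < κ := by
    intro α
    constructor
    · intro h
      by_contra hcon
      push Not at hcon
      have h1 : κ.toZFSet ∉ K := by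
        rw [hκ]
        exact csInf_mem hne
      rcases hcon.lt_or_eq with h2 | h2
      · exact h1 (hdown _ _ h2 h)
      · rw [h2] at h1
        exact h1 h
    · intro h
      by_contra hcon
      rw [hκ] at h
      exact absurd (csInf_le' (s := {α : Ordinal.{0} | α.toZFSet ∉ K}) hcon) (not_le.2 h)
  have hκW : κ.toZFSet ∈ W := by
    have h1 : κ.toZFSet = K.sep fun x => IsOrd x := by
      ext x
      rw [ZFSet.mem_sep, Ordinal.mem_toZFSet_iff]
      constructor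
      · rintro ⟨α, hα, rfl⟩
        exact ⟨(hκK α).2 hα, α, rfl⟩
      · rintro ⟨hx, α, rfl⟩
        exact ⟨α, (hκK α).1 hx, rfl⟩
    rw [h1]
    have h2 : Tm ZFm (fun _ v => (v 0).sep fun x => IsOrd x) :=
      Tm.sep (R := fun _ v => IsOrd (v 0)) (Dfb.isOrd (Tm.var 0)) (Tm.var 0)
    exact h2.1 _ hz (fun _ => K) fun _ => hK.mem
  have hsub : ∀ α : Ordinal.{0}, α ≤ κ → α.toZFSet ∈ W := by
    intro α hα
    rcases hα.lt_or_eq with h | h
    · exact hKW _ ((hκK α).2 h)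
    · rw [h]
      exact hκW
  have hsucc : ∀ α < κ, succ α < κ := by
    intro α hα
    obtain ⟨y, hy, hy2⟩ := hK.pow _ ((hκK α).2 hα)
    rw [← hκK]
    refine hK.sub y hy _ (hsub _ (succ_le_of_lt hα)) ?_
    intro z hz'
    rw [Ordinal.mem_toZFSet_iff] at hz'
    obtain ⟨β, hβ, rfl⟩ := hz'
    have hβα : β ≤ α := lt_succ_iff.1 hβ
    exact hy2 _ (hsub _ (hβα.trans hα.le)) (Ordinal.toZFSet_subset_toZFSet_iff.2 hβα)
  refine ⟨κ, ⟨hκW, (hκK ω).1 hK.om, ?_, ?_⟩⟩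
  · intro l hl f hf hfun
    obtain ⟨b, hb, hb2⟩ := hK.rep _ ((hκK l).2 hl) f hf
      (fun u _ y _ z _ h1 h2 => svl_of_isFunc hfun u y z h1 h2)
    obtain ⟨y, hy, hy2⟩ := hK.un b hb
    obtain ⟨S, hS⟩ : ∃ S : Set Ordinal.{0}, S = {η | η.toZFSet ∈ b} := ⟨_, rfl⟩
    have hSκ : ∀ η ∈ S, η < κ := by
      intro η hη
      rw [hS] at hη
      exact (hκK η).1 (hK.tr _ hb hη)
    have hbd : BddAbove S := ⟨κ, fun η hη => (hSκ η hη).le⟩
    have hγκ : sSup S ≤ κ := by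
      rcases S.eq_empty_or_nonempty with h | h
      · rw [h, csSup_empty]
        exact bot_le
      · exact csSup_le h fun η hη => (hSκ η hη).le
    have hγK : (sSup S).toZFSet ∈ K := by
      refine hK.sub y hy _ (hsub _ hγκ) ?_
      intro z hz'
      rw [Ordinal.mem_toZFSet_iff] at hz'
      obtain ⟨β, hβ, rfl⟩ := hz'
      rcases S.eq_empty_or_nonempty with h | h
      · rw [h, csSup_empty] at hβ
        exact absurd hβ not_lt_bot
      · obtain ⟨η, hη, hβη⟩ := exists_lt_of_lt_csSup h hβ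
        rw [hS] at hη
        exact hy2 _ hη _ (Ordinal.toZFSet_mem_toZFSet_iff.2 hβη)
    refine ⟨succ (sSup S), hsucc _ ((hκK _).1 hγK), fun ξ hξ => ?_⟩
    have hξl : ξ.toZFSet ∈ l.toZFSet := Ordinal.toZFSet_mem_toZFSet_iff.2 hξ
    have h1 := app_mem hfun hξl
    have h2 := pair_app_mem hfun hξl
    rw [Ordinal.mem_toZFSet_iff] at h1
    obtain ⟨η, hη, h3⟩ := h1
    rw [← h3] at h2 ⊢
    have h4 : η.toZFSet ∈ b := hb2 _ hξl _ ((hκK η).2 hη) h2
    have h5 : η ∈ S := by rw [hS]; exact h4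
    exact Ordinal.toZFSet_mem_toZFSet_iff.2 (lt_succ_iff.2 (le_csSup hbd h5))
  · intro l hl
    obtain ⟨y, hy, hy2⟩ := hK.pow _ ((hκK l).2 hl)
    obtain ⟨α, hα, f, hf, hon⟩ := hK.wo y hy
    refine ⟨α, (hκK α).1 hα, f, hKW f hf, fun x hx hxl => ?_⟩
    obtain ⟨a, ha, hax⟩ := hon.2 x (hy2 x hx hxl)
    rw [Ordinal.mem_toZFSet_iff] at ha
    obtain ⟨ξ, hξ, rfl⟩ := ha
    exact ⟨ξ, hξ, app_eq (svl_of_isFunc hon.1) hax⟩

end CAU
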